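import Pool.Agent.Helper93.WC.St

set_option autoImplicit false

namespace Pool.Agent.Helper8.WC

open Pool.Agent.Helper93.WC

theorem cVAN : VAN := by
  intro F _ l r _ hr κ hκ a ha
  by_contra hcon
  push Not at hcon
  apply ha
  have hr2 : 2 * 2 ^ (r - 1) = 2 ^ r := by
    rw [← pow_succ']
    congr 1
    omega
  let v : Fin (2 ^ (r - 1)) → F := fun i => κ ^ (2 * (i : ℕ) + 1)
  have hv : Function.Injective v := by
    intro i j hij
    have h1 : 2 * (i : ℕ) + 1 < 2 ^ r := by have := i.2; omega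
    have h2 : 2 * (j : ℕ) + 1 < 2 ^ r := by have := j.2; omega
    have h3 := hκ.pow_inj h1 h2 hij
    ext
    omega
  have hdet : (Matrix.vandermonde v).det ≠ 0 := Matrix.det_vandermonde_ne_zero_iff.2 hv
  have hmul : (Matrix.vandermonde v).mulVec (fun k => (a k : F)) = 0 := by
    ext i
    have h1 := hcon (2 * (i : ℕ) + 1) ⟨i, rfl⟩ (by have := i.2; omega)
    rw [Matrix.mulVec, dotProduct, Pi.zero_apply, ← h1]
    refine Finset.sum_congr rfl fun k _ => ?_
    rw [Matrix.vandermonde_apply, mul_comm]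
    simp only [v]
    rw [← pow_mul, ← pow_mul, mul_comm (2 * (i : ℕ) + 1)]
  have h0 := Matrix.eq_zero_of_mulVec_eq_zero hdet hmul
  intro k
  have h1 := congrFun h0 k
  exact (CharP.cast_eq_zero_iff F l (a k)).1 h1

end Pool.Agent.Helper8.WC
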